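import Mathlib
import Pool.Agent.Q280.JD.ThreeTwo

/-!
Full answer to Q1 of MP_72abcc_nt: `{3,2}_n = (φ(n)/2) x²` with an integer `x`, for every positive
integer `n ≡ 3 (mod 8)`.
-/

namespace Pool.Agent.Results.MP_72abcc_nt.HalfTotientSquare

/-- `{c,d}_n`: the determinant of the matrix `((j² + c j k + d k²) / n)` of Jacobi symbols, rows
and columns indexed by `j, k = 2, 3, ..., n - 2` (here `j = a + 2`, `k = b + 2` with
`a, b = 0, ..., n - 4`; the matrix is empty and the determinant is `1` for `n = 3`). -/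
def truncDet (c d : ℤ) (n : ℕ) : ℤ :=
  Matrix.det (Matrix.of fun a b : Fin (n - 3) =>
    jacobiSym (((a : ℤ) + 2) ^ 2 + c * ((a : ℤ) + 2) * ((b : ℤ) + 2) +
      d * ((b : ℤ) + 2) ^ 2) n)

theorem result : ∀ n : ℕ, n % 8 = 3 →
    ∃ x : ℤ, (truncDet 3 2 n : ℚ) = (Nat.totient n : ℚ) / 2 * (x : ℚ) ^ 2 := by
  intro n hn
  obtain ⟨x, hx⟩ := Pool.Agent.Q280.JD.main_three_two n hn
  refine ⟨x, ?_⟩
  have h : ((2 * (Pool.Agent.Q280.JD.M 3 2 n).det : ℤ) : ℚ) =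
      (((Nat.totient n : ℤ) * x ^ 2 : ℤ) : ℚ) := by rw [hx]
  have h2 : truncDet 3 2 n = (Pool.Agent.Q280.JD.M 3 2 n).det := rfl
  rw [h2]
  push_cast at h ⊢
  linarith

end Pool.Agent.Results.MP_72abcc_nt.HalfTotientSquare
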